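import Pool.Agent.helper34.MO.SpecC
import Pool.Agent.helper39.SQE.AT

/-! Project MO (MP_0631c5_co), module LOC: the local inequality. -/

set_option autoImplicit false

open Complex Finset

namespace Pool.Agent.MO

/-- `arctan x ≤ 1.0066 x / sqrt (1 + x^2)` for `0 ≤ x ≤ 1/5`, in the form needed. -/
theorem LOC_at (p q N : ℝ) (hp : 0 < p) (hN : 0 < N) (hN2 : N ^ 2 = p ^ 2 + q ^ 2) (hq : 0 ≤ q) (h : q ≤ 0.2 * p) :
    Real.arctan (q / p) ≤ 1.0066 * (q / N) := by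
  have hx0 : 0 ≤ q / p := div_nonneg hq hp.le
  have hx1 : q / p ≤ 0.2 := by rw [div_le_iff₀ hp]; exact h
  have h3 := Pool.Agent.SQE.at3 (q / p) hx0
  set x := q / p with hx
  have hqx : q = x * p := by rw [hx]; field_simp
  have hD : 0 < 15 + 9 * x ^ 2 := by positivity
  have hU : Real.arctan x ≤ (15 * x + 4 * x ^ 3) / (15 + 9 * x ^ 2) := by
    rw [le_div_iff₀ hD]; exact h3
  refine le_trans hU ?_
  have hR : 0 ≤ 1.0066 * (q / N) := by positivity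
  refine (sq_le_sq₀ (by positivity) hR).1 ?_
  have hqN : (q / N) ^ 2 = x ^ 2 / (1 + x ^ 2) := by
    rw [div_pow, hN2, hqx]
    have : p ^ 2 + (x * p) ^ 2 = p ^ 2 * (1 + x ^ 2) := by ring
    rw [this]
    have h1 : (1 + x ^ 2) ≠ 0 := by positivity
    field_simp
  rw [mul_pow, hqN, div_pow, ← mul_div_assoc (1.0066 ^ 2 : ℝ), div_le_div_iff₀ (by positivity) (by positivity)]
  have hy0 : 0 ≤ x ^ 2 := sq_nonneg x
  have hy1 : x ^ 2 ≤ 0.04 := by nlinarith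
  have key : (15 + 4 * x ^ 2) ^ 2 * (1 + x ^ 2) ≤ 1.0066 ^ 2 * (15 + 9 * x ^ 2) ^ 2 := by
    generalize x ^ 2 = y at hy0 hy1
    nlinarith [mul_nonneg hy0 (sub_nonneg.2 hy1), mul_nonneg hy0 hy0, mul_nonneg (mul_nonneg hy0 hy0) (sub_nonneg.2 hy1)]
  have e1 : (15 * x + 4 * x ^ 3) ^ 2 * (1 + x ^ 2) = x ^ 2 * ((15 + 4 * x ^ 2) ^ 2 * (1 + x ^ 2)) := by ring
  have e2 : 1.0066 ^ 2 * x ^ 2 * (15 + 9 * x ^ 2) ^ 2 = x ^ 2 * (1.0066 ^ 2 * (15 + 9 * x ^ 2) ^ 2) := by ring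
  rw [e1, e2]
  exact mul_le_mul_of_nonneg_left key hy0

theorem LOC_c (c s : ℝ) (hcs : c ^ 2 + s ^ 2 = 1) (hc0 : 0 < c) (hsc : |s| ≤ 0.2 * c) : 0.98058 ≤ c ∧ c ≤ 1 := by
  have h1 : s ^ 2 ≤ 0.04 * c ^ 2 := by
    have h := mul_self_le_mul_self (abs_nonneg s) hsc
    have e : |s| * |s| = s ^ 2 := by rw [← sq, sq_abs]
    rw [e] at h
    have e2 : 0.2 * c * (0.2 * c) = 0.04 * c ^ 2 := by ring
    rw [e2] at h
    exact h
  constructor
  · by_contra hcc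
    push Not at hcc
    have h2 : c ^ 2 < 0.98058 ^ 2 := pow_lt_pow_left₀ hcc hc0.le (by norm_num)
    norm_num at h2
    linarith
  · by_contra hcc
    push Not at hcc
    have h2 : (1 : ℝ) ^ 2 < c ^ 2 := pow_lt_pow_left₀ hcc (by norm_num) (by norm_num)
    have := sq_nonneg s
    linarith

theorem LOC_u (a b : ℝ) (ha0 : 0 ≤ a) (ha1 : a ≤ 0.1053) (hb0 : -0.0206 ≤ b) (hb1 : b ≤ 0.0416) :
    0.907 ≤ (1 - b) ^ 2 - a ^ 2 ∧ (1 - b) ^ 2 - a ^ 2 ≤ 1.0417 := by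
  have h1 : a ^ 2 ≤ 0.1053 ^ 2 := pow_le_pow_left₀ ha0 ha1 2
  have h2 : (0.9584 : ℝ) ^ 2 ≤ (1 - b) ^ 2 := pow_le_pow_left₀ (by norm_num) (by linarith) 2
  have h3 : (1 - b) ^ 2 ≤ 1.0206 ^ 2 := pow_le_pow_left₀ (by linarith) (by linarith) 2
  have h4 := sq_nonneg a
  norm_num at h1 h2 h3 ⊢
  constructor <;> linarith

theorem LOC_x (a b a' b' : ℝ) (ha0 : 0 ≤ a) (ha1 : a ≤ 0.1053) (hb0 : -0.0206 ≤ b) (hb1 : b ≤ 0.0416)
    (ha0' : 0 ≤ a') (ha1' : a' ≤ 0.1053) (hb0' : -0.0206 ≤ b') (hb1' : b' ≤ 0.0416) :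
    0.9074 ≤ (1 - b) * (1 - b') - a * a' ∧ (1 - b) * (1 - b') - a * a' ≤ 1.0417 ∧
    0 ≤ a * (1 - b') + a' * (1 - b) ∧ a * (1 - b') + a' * (1 - b) ≤ 0.21495 := by
  have h1 : a * a' ≤ 0.1053 * 0.1053 := mul_le_mul ha1 ha1' ha0' (by norm_num)
  have h2 : (0.9584 : ℝ) * 0.9584 ≤ (1 - b) * (1 - b') := mul_le_mul (by linarith) (by linarith) (by norm_num) (by linarith)
  have h3 : (1 - b) * (1 - b') ≤ 1.0206 * 1.0206 := mul_le_mul (by linarith) (by linarith) (by linarith) (by norm_num)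
  have h4 : 0 ≤ a * a' := mul_nonneg ha0 ha0'
  have h5 : 0 ≤ a * (1 - b') := mul_nonneg ha0 (by linarith)
  have h6 : 0 ≤ a' * (1 - b) := mul_nonneg ha0' (by linarith)
  have h7 : a * (1 - b') ≤ 0.1053 * 1.0206 := mul_le_mul ha1 (by linarith) (by linarith) (by norm_num)
  have h8 : a' * (1 - b) ≤ 0.1053 * 1.0206 := mul_le_mul ha1' (by linarith) (by linarith) (by norm_num)
  norm_num at h1 h2 h3 h7 h8 ⊢
  refine ⟨by linarith, by linarith, by linarith, by linarith⟩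

/-- case `s ≥ 0` -/
theorem LOC_pos (r c s x y om : ℝ) (hr0 : 0 < r) (hr1 : r ≤ 0.1) (hc1 : 0.98058 ≤ c) (hc2 : c ≤ 1)
    (hx0 : 0.9074 ≤ x) (hy0 : 0 ≤ y) (hy1 : y ≤ 0.21495) (hs0 : 0 ≤ s) (hom : 0 ≤ om) :
    1.74 * om * r ≤ om * (2 * (r * (x * c + y * s)) * (1 - r * (y * c - x * s))) := by
  have h3 : 0.8897 ≤ x * c + y * s := by
    have h : (0.9074 : ℝ) * 0.98058 ≤ x * c := mul_le_mul hx0 hc1 (by norm_num) (by linarith)
    have h4 : 0 ≤ y * s := mul_nonneg hy0 hs0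
    norm_num at h ⊢
    linarith
  have h2 : r * 0.8897 ≤ r * (x * c + y * s) := mul_le_mul_of_nonneg_left h3 hr0.le
  have h5 : 0.9785 ≤ 1 - r * (y * c - x * s) := by
    have h6 : y * c - x * s ≤ 0.215 := by
      have h : y * c ≤ 0.21495 * 1 := mul_le_mul hy1 hc2 (by linarith) (by norm_num)
      have h7 : 0 ≤ x * s := mul_nonneg (by linarith) hs0
      linarith
    have h8 : r * (y * c - x * s) ≤ r * 0.215 := mul_le_mul_of_nonneg_left h6 hr0.le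
    linarith
  have h9 : r * 0.8897 * 0.9785 ≤ r * (x * c + y * s) * (1 - r * (y * c - x * s)) :=
    mul_le_mul h2 h5 (by norm_num) (le_trans (by positivity) h2)
  have h11 := mul_le_mul_of_nonneg_left h9 hom
  have h12 : 0 ≤ om * r := mul_nonneg hom hr0.le
  have e : om * (2 * (r * (x * c + y * s)) * (1 - r * (y * c - x * s))) =
      2 * (om * (r * (x * c + y * s) * (1 - r * (y * c - x * s)))) := by ring
  rw [e]
  have e2 : om * (r * 0.8897 * 0.9785) = 0.87057145 * (om * r) := by ring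
  rw [e2] at h11
  linarith

/-- case `s < 0`, `v = -s` -/
theorem LOC_neg (r c v x y om S : ℝ) (hr0 : 0 < r) (hr1 : r ≤ 0.1) (hc1 : 0.98058 ≤ c) (hc2 : c ≤ 1)
    (hx0 : 0.9074 ≤ x) (hx1 : x ≤ 1.0417) (hy0 : 0 ≤ y) (hy1 : y ≤ 0.21495) (hv0 : 0 < v) (hv1 : v ≤ 0.2)
    (hom : 0 ≤ om) (hS : 9 * om ≤ S) :
    1.74 * om * r ≤ r * (S * v) + om * (2 * (r * (x * c + y * -v)) * (1 - r * (y * c - x * -v))) := by
  have h2 : r * (0.8897 - 0.21495 * v) ≤ r * (x * c + y * -v) := by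
    apply mul_le_mul_of_nonneg_left _ hr0.le
    have h : (0.9074 : ℝ) * 0.98058 ≤ x * c := mul_le_mul hx0 hc1 (by norm_num) (by linarith)
    have h4 : y * v ≤ 0.21495 * v := mul_le_mul_of_nonneg_right hy1 hv0.le
    norm_num at h ⊢
    linarith
  have h5 : 0.9785 - 0.10417 * v ≤ 1 - r * (y * c - x * -v) := by
    have h6 : y * c - x * -v ≤ 0.215 + 1.0417 * v := by
      have h : y * c ≤ 0.21495 * 1 := mul_le_mul hy1 hc2 (by linarith) (by norm_num)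
      have h7 : x * v ≤ 1.0417 * v := mul_le_mul_of_nonneg_right hx1 hv0.le
      linarith
    have h7 : 0 ≤ y * c - x * -v := by
      have h8 : 0 ≤ y * c := mul_nonneg hy0 (by linarith)
      have h9 : 0 ≤ x * v := mul_nonneg (by linarith) hv0.le
      linarith
    have h8 : r * (y * c - x * -v) ≤ 0.1 * (0.215 + 1.0417 * v) := mul_le_mul hr1 h6 h7 (by norm_num)
    linarith
  have hpos1 : 0 ≤ r * (0.8897 - 0.21495 * v) := mul_nonneg hr0.le (by linarith)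
  have hpos2 : 0 ≤ 0.9785 - 0.10417 * v := by linarith
  have h9 : r * (0.8897 - 0.21495 * v) * (0.9785 - 0.10417 * v) ≤
      r * (x * c + y * -v) * (1 - r * (y * c - x * -v)) :=
    mul_le_mul h2 h5 hpos2 (le_trans hpos1 h2)
  have h10 : r * (0.87 - 0.31 * v) ≤ r * (x * c + y * -v) * (1 - r * (y * c - x * -v)) := by
    refine le_trans ?_ h9
    rw [mul_assoc]
    apply mul_le_mul_of_nonneg_left _ hr0.le
    have e : (0.8897 - 0.21495 * v) * (0.9785 - 0.10417 * v) =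
      0.87057145 - 0.303008624 * v + 0.0223913415 * (v * v) := by ring
    rw [e]
    have hvv : 0 ≤ v * v := mul_nonneg hv0.le hv0.le
    linarith
  have h11 := mul_le_mul_of_nonneg_left h10 hom
  have h15 : r * (9 * om * v) ≤ r * (S * v) := by
    apply mul_le_mul_of_nonneg_left _ hr0.le
    exact mul_le_mul_of_nonneg_right hS hv0.le
  have h16 : 0 ≤ r * (om * v) := mul_nonneg hr0.le (mul_nonneg hom hv0.le)
  have e5 : om * (2 * (r * (x * c + y * -v)) * (1 - r * (y * c - x * -v))) =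
      2 * (om * (r * (x * c + y * -v) * (1 - r * (y * c - x * -v)))) := by ring
  have e6 : om * (r * (0.87 - 0.31 * v)) = 0.87 * om * r - 0.31 * (r * (om * v)) := by ring
  have e7 : r * (9 * om * v) = 9 * (r * (om * v)) := by ring
  rw [e5]
  rw [e6] at h11
  rw [e7] at h15
  linarith

/-- the real form of the local inequality -/
theorem LOC_real (p q N a b a' b' th wa wb om t : ℝ) (ht : 10 ≤ t) (hp : t ≤ p) (hq : |q| ≤ 2 / t * p)
    (hN0 : 0 < N) (hN2 : N ^ 2 = p ^ 2 + q ^ 2)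
    (ha0 : 0 ≤ a) (ha1 : a ≤ 0.1053) (hb0 : -0.0206 ≤ b) (hb1 : b ≤ 0.0416)
    (ha0' : 0 ≤ a') (ha1' : a' ≤ 0.1053) (hb0' : -0.0206 ≤ b') (hb1' : b' ≤ 0.0416)
    (hth0 : 0 ≤ q → q / N ≤ th) (hth1 : q < 0 → 1.0066 * (q / N) ≤ th)
    (hwa0 : 0 ≤ wa) (hwa1 : wa ≤ 1.0066 / t) (hwb0 : 0 ≤ wb) (hwb1 : wb ≤ 1.0066 / t) (hom : 0 ≤ om)
    (hom1 : om ≤ 1 / t * max wa wb) :
    ∃ wc : ℝ, 0.979 / N ≤ wc ∧ wc ≤ 1.0066 / t ∧
      wc * q + 2 * 0.87 * om / N ≤ th - (wa * ((1 - b) ^ 2 - a ^ 2) + wb * ((1 - b') ^ 2 - a' ^ 2)) * q / N ^ 2 +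
        om * (2 * ((((1 - b) * (1 - b') - a * a') * p + (a * (1 - b') + a' * (1 - b)) * q) / N ^ 2) *
          (1 - ((a * (1 - b') + a' * (1 - b)) * p - ((1 - b) * (1 - b') - a * a') * q) / N ^ 2)) := by
  have ht0 : 0 < t := by linarith
  have hp0 : 0 < p := by linarith
  obtain ⟨hx0, hx1, hy0, hy1⟩ := LOC_x a b a' b' ha0 ha1 hb0 hb1 ha0' ha1' hb0' hb1'
  obtain ⟨hu0, hu1⟩ := LOC_u a b ha0 ha1 hb0 hb1
  obtain ⟨hu0', hu1'⟩ := LOC_u a' b' ha0' ha1' hb0' hb1'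
  generalize (1 - b) * (1 - b') - a * a' = x at *
  generalize a * (1 - b') + a' * (1 - b) = y at *
  generalize (1 - b) ^ 2 - a ^ 2 = u at *
  generalize (1 - b') ^ 2 - a' ^ 2 = u' at *
  clear ha0 ha1 hb0 hb1 ha0' ha1' hb0' hb1'
  have hw10 : 1.0066 / t ≤ 0.10066 := by rw [div_le_iff₀ ht0]; linarith
  have hS0 : 0.907 * max wa wb ≤ wa * u + wb * u' := by
    have g1 : wa * 0.907 ≤ wa * u := mul_le_mul_of_nonneg_left hu0 hwa0
    have g2 : wb * 0.907 ≤ wb * u' := mul_le_mul_of_nonneg_left hu0' hwb0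
    rcases max_cases wa wb with ⟨h1, -⟩ | ⟨h1, -⟩ <;> rw [h1] <;> linarith
  have hS1 : wa * u + wb * u' ≤ 0.21 := by
    have h1 : wa * u ≤ 0.10066 * 1.0417 := mul_le_mul (by linarith) hu1 (by linarith) (by norm_num)
    have h2 : wb * u' ≤ 0.10066 * 1.0417 := mul_le_mul (by linarith) hu1' (by linarith) (by norm_num)
    norm_num at h1 h2 ⊢
    linarith
  have hM0 : 0 ≤ max wa wb := le_trans hwa0 (le_max_left _ _)
  generalize wa * u + wb * u' = S at *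
  have hSn : 0 ≤ S := le_trans (mul_nonneg (by norm_num) hM0) hS0
  have h9S : 9 * om ≤ S := by
    have h13 : om * t ≤ max wa wb := by
      have h := mul_le_mul_of_nonneg_right hom1 ht0.le
      have e : 1 / t * max wa wb * t = max wa wb := by field_simp
      rw [e] at h
      exact h
    have h14 : om * 10 ≤ om * t := mul_le_mul_of_nonneg_left ht hom
    linarith
  clear hu0 hu1 hu0' hu1' hS0 hwa1 hwb1 hom1
  have hNp : p ≤ N := by
    by_contra hc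
    push Not at hc
    have h1 : N ^ 2 < p ^ 2 := pow_lt_pow_left₀ hc hN0.le (by norm_num)
    have := sq_nonneg q
    linarith
  have h2t : 2 / t ≤ 0.2 := by rw [div_le_iff₀ ht0]; linarith
  have hq2 : |q| ≤ 0.2 * p := le_trans hq (mul_le_mul_of_nonneg_right h2t hp0.le)
  have hcs : (p / N) ^ 2 + (q / N) ^ 2 = 1 := by
    rw [div_pow, div_pow, ← add_div, ← hN2]
    exact div_self (by positivity)
  have hc0 : 0 < p / N := by positivity
  have hsc : |q / N| ≤ 0.2 * (p / N) := by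
    rw [abs_div, abs_of_pos hN0, ← mul_div_assoc]
    exact div_le_div_of_nonneg_right hq2 hN0.le
  obtain ⟨hc1, hc2⟩ := LOC_c _ _ hcs hc0 hsc
  have e1 : (x * p + y * q) / N ^ 2 = 1 / N * (x * (p / N) + y * (q / N)) := by field_simp
  have e2 : (y * p - x * q) / N ^ 2 = 1 / N * (y * (p / N) - x * (q / N)) := by field_simp
  have e3 : S * q / N ^ 2 = 1 / N * (S * (q / N)) := by field_simp
  have e4 : 2 * 0.87 * om / N = 1.74 * om * (1 / N) := by ring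
  rw [e1, e2, e3, e4]
  have hr0 : 0 < 1 / N := by positivity
  have hr1 : 1 / N ≤ 0.1 := by rw [div_le_iff₀ hN0]; linarith
  have hrt : 1 / N ≤ 1 / t := one_div_le_one_div_of_le ht0 (by linarith)
  have e5 : 0.979 / N = (1 / N) * 0.979 := by ring
  have e6 : 1.0066 / t = 1.0066 * (1 / t) := by ring
  have e7 : 1 / N * q = q / N := by ring
  rw [e5, e6]
  rcases le_or_gt 0 q with hq0 | hq0
  · -- q ≥ 0
    have hth := hth0 hq0
    have hs0 : 0 ≤ q / N := div_nonneg hq0 hN0.le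
    have hmain := LOC_pos (1 / N) (p / N) (q / N) x y om hr0 hr1 hc1 hc2 hx0 hy0 hy1 hs0 hom
    refine ⟨1 / N * (1 - 1 / N * S), ?_, ?_, ?_⟩
    · apply mul_le_mul_of_nonneg_left _ hr0.le
      have : 1 / N * S ≤ 0.1 * 0.21 := mul_le_mul hr1 hS1 hSn (by norm_num)
      linarith
    · have h2 : 0 ≤ 1 / N * (1 / N * S) := mul_nonneg hr0.le (mul_nonneg hr0.le hSn)
      have h3 : 1 / N * (1 - 1 / N * S) = 1 / N - 1 / N * (1 / N * S) := by ring
      rw [h3]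
      have h4 : 0 < 1 / t := by positivity
      linarith
    · have h1 : 1 / N * (1 - 1 / N * S) * q = q / N - 1 / N * (S * (q / N)) := by ring
      rw [h1]
      linarith
  · -- q < 0
    have hth := hth1 hq0
    obtain ⟨v, hv⟩ : ∃ v : ℝ, q / N = -v := ⟨-(q / N), by ring⟩
    have hv0 : 0 < v := by
      have : q / N < 0 := div_neg_of_neg_of_pos hq0 hN0
      linarith
    have hv1 : v ≤ 0.2 := by
      rw [hv, abs_neg, abs_of_pos hv0] at hsc
      linarith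
    have hmain := LOC_neg (1 / N) (p / N) v x y om S hr0 hr1 hc1 hc2 hx0 hx1 hy0 hy1 hv0 hv1 hom h9S
    refine ⟨1.0066 * (1 / N), ?_, ?_, ?_⟩
    · linarith
    · linarith
    · have h1 : 1.0066 * (1 / N) * q = 1.0066 * (q / N) := by ring
      rw [h1]
      have h2 : 1 / N * (S * (q / N)) = -(1 / N * (S * v)) := by rw [hv]; ring
      rw [h2]
      rw [hv] at hth ⊢
      linarith

theorem LOC : LOC_stmt := by
  intro t P ml mr wa wb om ht hP hPi hml hmr hwa0 hwa1 hwb0 hwb1 hom hom1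
  have ht0 : 0 < t := by linarith
  have hp0 : 0 < P.re := by linarith
  have hP0 : P ≠ 0 := by
    intro h
    rw [h] at hp0
    simp at hp0
  have hN0 : 0 < ‖P‖ := norm_pos_iff.2 hP0
  have hN2 : ‖P‖ ^ 2 = P.re ^ 2 + P.im ^ 2 := by
    rw [← Complex.normSq_eq_norm_sq, Complex.normSq_apply]; ring
  obtain ⟨hl1, hl2, hl3, hl4⟩ := hml
  obtain ⟨hr1, hr2, hr3, hr4⟩ := hmr
  have hla : ml.re ≤ 0.1053 := le_trans (le_trans (le_abs_self _) (Complex.abs_re_le_norm ml)) hl4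
  have hra : mr.re ≤ 0.1053 := le_trans (le_trans (le_abs_self _) (Complex.abs_re_le_norm mr)) hr4
  have h2t : 2 / t ≤ 0.2 := by rw [div_le_iff₀ ht0]; linarith
  have hq2 : |P.im| ≤ 0.2 * P.re := le_trans hPi (mul_le_mul_of_nonneg_right h2t hp0.le)
  have harg : |arg P| < Real.pi / 2 := Complex.abs_arg_lt_pi_div_two_iff.2 (Or.inl hp0)
  have hatan : arg P = Real.arctan (P.im / P.re) := by
    rw [← Complex.tan_arg, Real.arctan_tan (abs_lt.1 harg).1 (abs_lt.1 harg).2]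
  obtain ⟨wc, hc1, hc2, hc3⟩ := LOC_real P.re P.im ‖P‖ ml.re ml.im mr.re mr.im (arg P) wa wb om t ht hP hPi hN0 hN2
    hl1 hla hl2 hl3 hr1 hra hr2 hr3 (by
      intro hq
      rw [← Complex.sin_arg]
      exact Real.sin_le (Complex.arg_nonneg_iff.2 hq)) (by
      intro hq
      have h := LOC_at P.re (-P.im) ‖P‖ hp0 hN0 (by rw [hN2]; ring) (by linarith) (by
        rw [abs_of_neg hq] at hq2; exact hq2)
      rw [neg_div, Real.arctan_neg, neg_div] at h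
      rw [hatan]
      linarith) hwa0 hwa1 hwb0 hwb1 hom hom1
  refine ⟨wc, hc1, hc2, ?_⟩
  have nS : Complex.normSq P = ‖P‖ ^ 2 := Complex.normSq_eq_norm_sq P
  have k1 : ∀ m : ℂ, ((1 + I * m) ^ 2).im = 2 * m.re * (1 - m.im) := by
    intro m
    simp [sq]; ring
  have k2 : ∀ m : ℂ, ((1 + I * m) ^ 2).re = (1 - m.im) ^ 2 - m.re ^ 2 := by
    intro m
    simp [sq]; ring
  have k3 : ∀ m : ℂ, ((1 + I * m) ^ 2 / P).im =
      (2 * m.re * (1 - m.im)) * P.re / ‖P‖ ^ 2 - ((1 - m.im) ^ 2 - m.re ^ 2) * P.im / ‖P‖ ^ 2 := by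
    intro m
    rw [Complex.div_im, k1, k2, nS]
  have k4 : (-((ml - I) * (mr - I)) / P).re = (((1 - ml.im) * (1 - mr.im) - ml.re * mr.re) * P.re +
      (ml.re * (1 - mr.im) + mr.re * (1 - ml.im)) * P.im) / ‖P‖ ^ 2 := by
    rw [Complex.div_re, nS]
    simp
    ring
  have k5 : (-((ml - I) * (mr - I)) / P).im = ((ml.re * (1 - mr.im) + mr.re * (1 - ml.im)) * P.re -
      ((1 - ml.im) * (1 - mr.im) - ml.re * mr.re) * P.im) / ‖P‖ ^ 2 := by
    rw [Complex.div_im, nS]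
    simp
    ring
  rw [k1, k1, k1, k3, k3, k4, k5]
  have e7 : arg P + wa * (2 * ml.re * (1 - ml.im) * P.re / ‖P‖ ^ 2 - ((1 - ml.im) ^ 2 - ml.re ^ 2) * P.im / ‖P‖ ^ 2) +
      wb * (2 * mr.re * (1 - mr.im) * P.re / ‖P‖ ^ 2 - ((1 - mr.im) ^ 2 - mr.re ^ 2) * P.im / ‖P‖ ^ 2) =
      arg P - (wa * ((1 - ml.im) ^ 2 - ml.re ^ 2) + wb * ((1 - mr.im) ^ 2 - mr.re ^ 2)) * P.im / ‖P‖ ^ 2 +
        wa * (P.re / ‖P‖ ^ 2) * (2 * ml.re * (1 - ml.im)) + wb * (P.re / ‖P‖ ^ 2) * (2 * mr.re * (1 - mr.im)) := by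
    ring
  rw [e7]
  linarith

end Pool.Agent.MO
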