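import Pool.Agent.helper34.MO.Defs

/-! Project MO (MP_0631c5_co), module N8, first part: the 132 rooted triangulations of the octagon. -/

set_option autoImplicit false

open Finset

namespace Pool.Agent.MO

/-! ### natural number version of the adjacency matrix, list of the trees, traces -/

/-- natural number version of `AT` -/
def N8_A : Tr → ℕ → ℕ → ℕ → ℕ
  | .e, _, _, _ => 0
  | .nd l r, i, x, y =>
    (if (x = i ∧ y = i + l.sz + 1) ∨ (x = i + l.sz + 1 ∧ y = i) ∨
        (x = i + l.sz + 1 ∧ y = i + l.sz + 1 + r.sz + 1) ∨ (x = i + l.sz + 1 + r.sz + 1 ∧ y = i + l.sz + 1)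
      then 1 else 0) + N8_A l i x y + N8_A r (i + l.sz + 1) x y

/-- natural number version of `AG` -/
def N8_G (t : Tr) (x y : ℕ) : ℕ :=
  (if (x = 0 ∧ y = t.sz + 1) ∨ (x = t.sz + 1 ∧ y = 0) then 1 else 0) + N8_A t 0 x y

theorem N8_A_eq (t : Tr) (i x y : ℕ) : AT t i x y = (N8_A t i x y : ℝ) := by
  induction t generalizing i with
  | e => simp [AT, N8_A]
  | nd l r ihl ihr =>
    rw [AT, N8_A, ihl, ihr]
    push_cast
    rfl

theorem N8_G_eq (t : Tr) (x y : ℕ) : AG t x y = (N8_G t x y : ℝ) := by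
  unfold AG N8_G
  rw [N8_A_eq]
  push_cast
  rfl

theorem N8_A_symm (t : Tr) (i x y : ℕ) : N8_A t i x y = N8_A t i y x := by
  induction t generalizing i with
  | e => rfl
  | nd l r ihl ihr =>
    rw [N8_A, N8_A, ihl, ihr]
    have h : ((x = i ∧ y = i + l.sz + 1) ∨ (x = i + l.sz + 1 ∧ y = i) ∨
        (x = i + l.sz + 1 ∧ y = i + l.sz + 1 + r.sz + 1) ∨ (x = i + l.sz + 1 + r.sz + 1 ∧ y = i + l.sz + 1)) ↔
      ((y = i ∧ x = i + l.sz + 1) ∨ (y = i + l.sz + 1 ∧ x = i) ∨
        (y = i + l.sz + 1 ∧ x = i + l.sz + 1 + r.sz + 1) ∨ (y = i + l.sz + 1 + r.sz + 1 ∧ x = i + l.sz + 1)) := by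
      tauto
    simp only [h]

theorem N8_G_symm (t : Tr) (x y : ℕ) : N8_G t x y = N8_G t y x := by
  unfold N8_G
  rw [N8_A_symm]
  have h : ((x = 0 ∧ y = t.sz + 1) ∨ (x = t.sz + 1 ∧ y = 0)) ↔ ((y = 0 ∧ x = t.sz + 1) ∨ (y = t.sz + 1 ∧ x = 0)) := by
    tauto
  simp only [h]

/-- all trees with `n` nodes and height at most `d` -/
def N8_all : ℕ → ℕ → List Tr
  | 0, n => if n = 0 then [.e] else []
  | d + 1, n => if n = 0 then [.e] else
      (List.range n).flatMap fun i => (N8_all d i).flatMap fun l => (N8_all d (n - 1 - i)).map (fun r => Tr.nd l r)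

theorem N8_mem (d : ℕ) : ∀ t : Tr, t.sz ≤ d → t ∈ N8_all d t.sz := by
  induction d with
  | zero =>
    intro t ht
    cases t with
    | e => simp [N8_all, Tr.sz]
    | nd l r => simp [Tr.sz] at ht
  | succ d ih =>
    intro t ht
    cases t with
    | e => simp [N8_all, Tr.sz]
    | nd l r =>
      have h1 : (Tr.nd l r).sz = l.sz + r.sz + 1 := rfl
      rw [h1] at ht ⊢
      rw [N8_all, if_neg (by omega)]
      rw [List.mem_flatMap]
      refine ⟨l.sz, List.mem_range.2 (by omega), ?_⟩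
      rw [List.mem_flatMap]
      refine ⟨l, ih l (by omega), ?_⟩
      rw [List.mem_map]
      refine ⟨r, ?_, rfl⟩
      have h2 : l.sz + r.sz + 1 - 1 - l.sz = r.sz := by omega
      rw [h2]
      exact ih r (by omega)

def N8_dot (u v : List ℕ) : ℕ := (List.zipWith (fun a b => a * b) u v).sum

def N8_tab (t : Tr) : List (List ℕ) := (List.range 8).map fun i => (List.range 8).map fun j => N8_G t i j

def N8_mul (M L : List (List ℕ)) : List (List ℕ) := L.map fun v => M.map fun row => N8_dot row v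

def N8_tr (M L : List (List ℕ)) : ℕ := (List.zipWith N8_dot M L).sum

def N8_chk (t : Tr) : Bool :=
  let M := N8_tab t
  let M2 := N8_mul M M
  let M3 := N8_mul M M2
  let M4 := N8_mul M M3
  decide (N8_tr M4 M4 ≤ 65536 ∧ 65440000 + 600000 * N8_tr M2 M2 + 1306500 * N8_tr M2 M3 + 21404 * N8_tr M4 M4 ≤
    858000 * N8_tr M M + 7421000 * N8_tr M M2 + 175700 * N8_tr M3 M3 + 111170 * N8_tr M3 M4)

theorem N8_kernel : ∀ t ∈ N8_all 6 6, N8_chk t = true := by decide +kernel

end Pool.Agent.MO
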