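import Pool.Agent.helper34.MO.SpecD
import Pool.Agent.helper39.MO.N8K
import Pool.Agent.helper39.SQE.C8

/-! Project MO (MP_0631c5_co), module N8: the order 8. -/

set_option autoImplicit false

open Finset

namespace Pool.Agent.MO

/-! ### lists and matrices -/

def N8_L (B : Matrix (Fin 8) (Fin 8) ℕ) : List (List ℕ) := List.ofFn fun i => List.ofFn fun j => B i j

def N8_M (t : Tr) : Matrix (Fin 8) (Fin 8) ℕ := Matrix.of fun i j => N8_G t i.1 j.1

theorem N8_tab_eq (t : Tr) : N8_tab t = N8_L (N8_M t) := by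
  simp [N8_tab, N8_L, N8_M, List.range_succ, List.ofFn_succ]

theorem N8_dot_eq (u v : Fin 8 → ℕ) : N8_dot (List.ofFn u) (List.ofFn v) = ∑ k, u k * v k := by
  simp [N8_dot, List.ofFn_succ, Fin.sum_univ_succ]

theorem N8_M_symm (t : Tr) : (N8_M t).transpose = N8_M t := by
  ext i j
  exact N8_G_symm t j.1 i.1

theorem N8_mul_eq (A B : Matrix (Fin 8) (Fin 8) ℕ) (hA : A.transpose = A) :
    N8_mul (N8_L A) (N8_L B) = N8_L (B * A) := by
  unfold N8_mul N8_L
  rw [List.map_ofFn]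
  congr 1
  funext i
  simp only [Function.comp]
  rw [List.map_ofFn]
  congr 1
  funext j
  simp only [Function.comp]
  rw [N8_dot_eq, Matrix.mul_apply]
  refine Finset.sum_congr rfl fun k _ => ?_
  have h : A j k = A k j := by
    conv_lhs => rw [← hA]
    rfl
  rw [h, mul_comm]

theorem N8_zip (u v : Fin 8 → List ℕ) (w : Fin 8 → ℕ) (h : ∀ i, N8_dot (u i) (v i) = w i) :
    (List.zipWith N8_dot (List.ofFn u) (List.ofFn v)).sum = ∑ i, w i := by
  simp [List.ofFn_succ, Fin.sum_univ_succ, ← h]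

theorem N8_tr_eq (A B : Matrix (Fin 8) (Fin 8) ℕ) (hB : B.transpose = B) :
    N8_tr (N8_L A) (N8_L B) = (A * B).trace := by
  unfold N8_tr N8_L
  rw [N8_zip _ _ (fun i => ∑ k, A i k * B i k) (fun i => N8_dot_eq _ _)]
  unfold Matrix.trace
  refine Finset.sum_congr rfl fun i _ => ?_
  rw [Matrix.diag_apply, Matrix.mul_apply]
  refine Finset.sum_congr rfl fun k _ => ?_
  have h : B i k = B k i := by
    conv_lhs => rw [← hB]
    rfl
  rw [h]

/-- The result of the evaluation. -/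
theorem N8_res (t : Tr) (ht : t.sz = 6) :
    ((N8_M t) ^ 8).trace ≤ 65536 ∧
    65440000 + 600000 * ((N8_M t) ^ 4).trace + 1306500 * ((N8_M t) ^ 5).trace + 21404 * ((N8_M t) ^ 8).trace ≤
      858000 * ((N8_M t) ^ 2).trace + 7421000 * ((N8_M t) ^ 3).trace + 175700 * ((N8_M t) ^ 6).trace +
        111170 * ((N8_M t) ^ 7).trace := by
  have h0 : t ∈ N8_all 6 6 := by
    have := N8_mem 6 t ht.le
    rw [ht] at this
    exact this
  have h := N8_kernel t h0
  unfold N8_chk at h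
  have h1 := of_decide_eq_true h
  clear h
  set A := N8_M t with hA
  have hs : A.transpose = A := N8_M_symm t
  have e1 : N8_tab t = N8_L A := N8_tab_eq t
  have e2 : N8_mul (N8_L A) (N8_L A) = N8_L (A ^ 2) := by rw [N8_mul_eq A A hs, sq]
  have e3 : N8_mul (N8_L A) (N8_L (A ^ 2)) = N8_L (A ^ 3) := by rw [N8_mul_eq A _ hs, ← pow_succ]
  have e4 : N8_mul (N8_L A) (N8_L (A ^ 3)) = N8_L (A ^ 4) := by rw [N8_mul_eq A _ hs, ← pow_succ]
  rw [e1, e2, e3, e4] at h1
  have hp : ∀ k : ℕ, (A ^ k).transpose = A ^ k := fun k => by rw [Matrix.transpose_pow, hs]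
  have g : ∀ a b : ℕ, N8_tr (N8_L (A ^ a)) (N8_L (A ^ b)) = (A ^ (a + b)).trace := fun a b => by
    rw [N8_tr_eq _ _ (hp b), ← pow_add]
  have g11 : N8_tr (N8_L A) (N8_L A) = (A ^ 2).trace := by rw [N8_tr_eq _ _ hs, sq]
  have g12 : N8_tr (N8_L A) (N8_L (A ^ 2)) = (A ^ 3).trace := by
    rw [N8_tr_eq _ _ (hp 2), ← pow_succ']
  rw [g 4 4, g 2 2, g 2 3, g11, g12, g 3 3, g 3 4] at h1
  exact h1

/-! ### eigenvalues -/

theorem N8_trpow {n : ℕ} (A : Matrix (Fin n) (Fin n) ℝ) (hA : A.IsHermitian) (k : ℕ) :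
    ∑ i, hA.eigenvalues i ^ k = (A ^ k).trace := by
  conv_rhs => rw [hA.spectral_theorem, ← map_pow, Unitary.conjStarAlgAut_apply, Matrix.trace_mul_cycle]
  simp [Matrix.diagonal_pow, Matrix.trace_diagonal]

theorem N8_cast (B : Matrix (Fin 8) (Fin 8) ℕ) (k : ℕ) :
    ((B.map (Nat.cast : ℕ → ℝ)) ^ k).trace = (((B ^ k).trace : ℕ) : ℝ) := by
  have h : (B.map (Nat.cast : ℕ → ℝ)) ^ k = (B ^ k).map (Nat.cast : ℕ → ℝ) := by
    have := (map_pow (RingHom.mapMatrix (m := Fin 8) (Nat.castRingHom ℝ)) B k).symm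
    exact this
  rw [h]
  unfold Matrix.trace
  simp [Matrix.map_apply]

theorem N8 : N8_stmt := by
  intro t ht
  set A : Matrix (Fin 8) (Fin 8) ℝ := Matrix.of (fun i j : Fin 8 => AG t i.1 j.1) with hAdef
  have hAB : A = (N8_M t).map (Nat.cast : ℕ → ℝ) := by
    ext i j
    exact N8_G_eq t i.1 j.1
  have hA : A.IsHermitian := by
    rw [Matrix.IsHermitian, Matrix.conjTranspose_eq_transpose_of_trivial, hAB]
    ext i j
    simp only [Matrix.transpose_apply, Matrix.map_apply]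
    exact congrArg _ (N8_G_symm t j.1 i.1)
  have hev : evA (AG t) 8 = Finset.univ.val.map hA.eigenvalues := by
    unfold evA
    rw [← hAdef, hA.roots_charpoly_eq_eigenvalues]
    rfl
  have hDD : DD (evA (AG t) 8) = ∑ i, hA.eigenvalues i * |hA.eigenvalues i| := by
    unfold DD
    rw [hev, Multiset.map_map]
    rfl
  rw [hDD]
  obtain ⟨r1, r2⟩ := N8_res t ht
  have hm : ∀ k : ℕ, ∑ i, hA.eigenvalues i ^ k = (((N8_M t ^ k).trace : ℕ) : ℝ) := by
    intro k
    rw [N8_trpow A hA k, hAB, N8_cast]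
  have hL : ∀ i, |hA.eigenvalues i| ≤ 4 := by
    intro i
    have h1 : hA.eigenvalues i ^ 8 ≤ ∑ j, hA.eigenvalues j ^ 8 :=
      Finset.single_le_sum (f := fun j => hA.eigenvalues j ^ 8)
        (fun j _ => (Even.pow_nonneg (by decide) _)) (Finset.mem_univ i)
    rw [hm 8] at h1
    have h2 : (((N8_M t ^ 8).trace : ℕ) : ℝ) ≤ 4 ^ 8 := by
      have : (((N8_M t ^ 8).trace : ℕ) : ℝ) ≤ ((65536 : ℕ) : ℝ) := by exact_mod_cast r1
      norm_num at this ⊢
      exact this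
    have h3 : |hA.eigenvalues i| ^ 8 ≤ 4 ^ 8 := by
      rw [Even.pow_abs (by decide)]
      linarith
    exact (pow_le_pow_iff_left₀ (abs_nonneg _) (by norm_num) (by norm_num)).1 h3
  refine Pool.Agent.SQE.small8 (Fintype.card_fin 8) hA.eigenvalues hL
    (fun k => (((N8_M t ^ k).trace : ℕ) : ℝ)) (fun k _ _ => hm k) ?_
  have h1 : (0 : ℝ) ≤ (((N8_M t ^ 1).trace : ℕ) : ℝ) := Nat.cast_nonneg _
  have r2' : (65440000 + 600000 * ((N8_M t) ^ 4).trace + 1306500 * ((N8_M t) ^ 5).trace + 21404 * ((N8_M t) ^ 8).trace : ℝ) ≤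
      858000 * ((N8_M t) ^ 2).trace + 7421000 * ((N8_M t) ^ 3).trace + 175700 * ((N8_M t) ^ 6).trace +
        111170 * ((N8_M t) ^ 7).trace := by exact_mod_cast r2
  norm_num
  linarith

end Pool.Agent.MO
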